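import Pool.Agent.Results.MP_6accbf_nt.FewDigitCurvesOverNumberFields
import Pool.Agent.X174.DigitWin

/-!
# Prime quotients `#E(F_v) / t` for elliptic curves over number fields: a law with square-root error for ALL members of linear
families with parameters in cubes

**Theorem.** Let `d ≥ 1`, `n, A ≥ 0`, `δ > 0`. There is `c > 0` such that the following holds for every family which assigns to
every `x` at most `x ^ A` systems of a number field `F` of degree at most `n`, forms `a = α₀ + ∑ m_l α_l`, `e = β₀ + ∑ m_l β_l`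
over its ring of integers with the condition `Free` (the vectors `(α_l, β_l)` span `(1, 0)` and `(0, 1)` over `ℤ`), a `t ∈ ℕ` and
a real function `w` on the primes of `F` with `|w| ≤ 1`; every `ξ > 0` with `ξ A ≤ d`, every sequence `v ≥ 1` of exponent of
convergence at most `τ` (for `v_i = (i + 1) ^ b` this is `1 / b`, for `v_i = b ^ i` it is `0`) and every `ρ < 1`: there is a set
`E ⊂ ℝ ^ d` of Hausdorff dimension at most `(d - ξ A + τ) / (1 - ρ)` such that for each `x ∈ ℝ ^ d` outside `E` there is `i₀`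
such that for ALL `m ∈ ℕ ^ d` with `|m_l - x_l v_i| ≤ v_i ^ ρ` for some `i ≥ i₀`, all integers `X` with `v_i ^ ξ ≤ X ≤ v_i ^ c`
and all systems belonging to `X` the sum of `w (v)` over the primes `v` of `F` of norm at most `X` of good reduction of
`E : Y ^ 2 = X ^ 3 + a (m) X + e (m)` for which `#E(F_v) / t` is prime differs from its expected value by at most
`X ^ (1 / 2 + δ)`.

The numbers of the exceptional `m` come from the result `FewDigitCurvesOverNumberFields` on the digits of `m`.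
-/

set_option autoImplicit false

open Finset NumberField IsDedekindDomain Module

namespace Pool.Agent.Results.MP_6accbf_nt.CurvesInCubes

open FewDigitCurvesOverNumberFields (count expected Free exceptions change)

/-- the exponent of convergence of the sequence `v` is at most `τ` -/
def ExpLe (v : ℕ → ℝ) (τ : ℝ) : Prop := ∀ t : ℝ, τ < t → Summable (fun n : ℕ => (v n) ^ (-t))

lemma exc_spec {d : ℕ} (b : ℕ) (K s N : Fin d → ℕ) (f : Fin d → ℕ → ℕ) (E : (Fin d → ℕ) → Prop) :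
    ∃ W : Finset (Fin d → Finset ℕ), W.card = exceptions b K s N f E ∧
      ∀ S ∈ Fintype.piFinset (fun l => powersetCard (s l) (range (K l))), S ∉ W →
        E (fun l => change b (K l) (N l) (f l) (S l)) := by
  classical
  refine ⟨_, rfl, fun S hS hSW => ?_⟩
  by_contra h
  exact hSW (mem_filter.2 ⟨hS, h⟩)

/-- **Prime quotients, all parameters in cubes.** For `d ≥ 1`, `n, A ≥ 0` and `δ > 0` there is `c > 0` such that for every
family which assigns to every `x` at most `x ^ A` systems `(F; a, e; t; w)` as above, every `ξ > 0` with `ξ A ≤ d`, every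
sequence `v ≥ 1` of exponent of convergence at most `τ ≥ 0` and every `ρ < 1` there is a set `E ⊂ ℝ ^ d` of Hausdorff dimension
at most `(d - ξ A + τ) / (1 - ρ)` such that for each `x` outside `E` there is `i₀` such that for all `i ≥ i₀`, all `m ∈ ℕ ^ d`
with `|m_l - x_l v_i| ≤ v_i ^ ρ`, all integers `X` with `v_i ^ ξ ≤ X ≤ v_i ^ c` and all systems of `X` the sum of `w (v)` over
the primes `v` of norm at most `X` for which `E` is nonsingular over the residue field with a number of points `t` times a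
prime differs from its expected value by at most `X ^ (1 / 2 + δ)`. The sequences `v_i = (i + 1) ^ b` and `v_i = b ^ i` have
exponent of convergence at most `1 / b` and `0`. -/
theorem result :
    (∀ (d n : ℕ), 1 ≤ d → ∀ δ : ℝ, 0 < δ → ∀ A : ℕ, ∃ c : ℝ, 0 < c ∧
      ∀ (κ : Type) (F : κ → Type) [∀ i, Field (F i)] [∀ i, NumberField (F i)] (α₀ : ∀ i, 𝓞 (F i)) (α : ∀ i, Fin d → 𝓞 (F i))
        (β₀ : ∀ i, 𝓞 (F i)) (β : ∀ i, Fin d → 𝓞 (F i)) (t : κ → ℕ) (w : ∀ i, HeightOneSpectrum (𝓞 (F i)) → ℝ)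
        (Λ : ℕ → Finset κ),
      (∀ i, finrank ℚ (F i) ≤ n) → (∀ i, Free (α i) (β i)) → (∀ i v, |w i v| ≤ 1) → (∀ x, (Λ x).card ≤ x ^ A) →
      ∀ ξ : ℝ, 0 < ξ → ξ * A ≤ d → ∀ (v : ℕ → ℝ) (τ ρ : ℝ), (∀ i, 1 ≤ v i) → 0 ≤ τ → ExpLe v τ → ρ < 1 →
      ∃ E : Set (Fin d → ℝ), dimH E ≤ ENNReal.ofReal ((d - ξ * A + τ) / (1 - ρ)) ∧ ∀ x : Fin d → ℝ, x ∉ E →
        ∃ i₀ : ℕ, ∀ i : ℕ, i₀ ≤ i → ∀ m : Fin d → ℕ, (∀ l, |(m l : ℝ) - x l * v i| ≤ (v i) ^ ρ) →
          ∀ X : ℕ, (v i) ^ ξ ≤ X → (X : ℝ) ≤ (v i) ^ c → ∀ j ∈ Λ X,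
            |count (α₀ j) (α j) (β₀ j) (β j) (t j) (w j) m X - expected (F j) (t j) (w j) X| ≤ (X : ℝ) ^ (1 / 2 + δ)) ∧
    (∀ b : ℝ, 0 < b → ExpLe (fun n : ℕ => ((n : ℝ) + 1) ^ b) (1 / b)) ∧
    (∀ b : ℝ, 1 < b → ExpLe (fun n : ℕ => b ^ n) 0) := by
  classical
  refine ⟨fun d n hd δ hδ A => ?_, fun κ hκ => Pool.Agent.Y854.GM.expLe_pow κ hκ,
    fun b hb => Pool.Agent.Y854.GM.expLe_geom b hb⟩
  obtain ⟨c, hc, y₀, h⟩ := FewDigitCurvesOverNumberFields.result 2 d n le_rfl hd δ hδ A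
  refine ⟨c / 4, by positivity, ?_⟩
  intro κ F _ _ α₀ α β₀ β t w Λ hn hab hw hΛ ξ hξ hξA v τ ρ hv hτ hE hρ
  obtain ⟨E, h1, h2⟩ := Pool.Agent.X174.digitWin (d := d) (c := c) hc y₀ A
    (fun X m => ∀ j ∈ Λ X,
      |count (α₀ j) (α j) (β₀ j) (β j) (t j) (w j) m X - expected (F j) (t j) (w j) X| ≤ (X : ℝ) ^ (1 / 2 + δ)) (by
      intro K r y hrK hy N hN f hf
      have h3 := h K r y hrK hy N hN f hf κ F α₀ α β₀ β t w Λ hn hab hw hΛ
      obtain ⟨W, hW1, hW2⟩ := exc_spec 2 K r N f (fun m => ∀ x : ℕ, y ≤ x → (∀ l, (x : ℝ) ≤ Real.exp (c * r l)) → ∀ i ∈ Λ x,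
        |count (α₀ i) (α i) (β₀ i) (β i) (t i) (w i) m x - expected (F i) (t i) (w i) x| ≤ (x : ℝ) ^ (1 / 2 + δ))
      rw [← hW1] at h3
      exact ⟨W, h3, fun S hS hSW x hyx hxr => hW2 S hS hSW x hyx hxr⟩)
    hξ hξA hv hτ hE hρ
  refine ⟨E, h1, fun x hx => ?_⟩
  obtain ⟨i₀, hi₀⟩ := h2 x hx
  exact ⟨i₀, fun i hi m hm X hX1 hX2 => hi₀ i hi m hm X hX1 hX2⟩

end Pool.Agent.Results.MP_6accbf_nt.CurvesInCubes
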