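import Pool.Agent.X22.RC

/-!
# Prime quotients `#E(F_v) / t` for elliptic curves over number fields: a law with square-root error for almost all members of arbitrarily
thin linear families

Nothing is used besides Mathlib in the statement.
-/

set_option autoImplicit false

namespace Pool.Agent.Results.MP_6accbf_nt.FewDigitCurvesOverNumberFields

open Finset NumberField IsDedekindDomain Module

/-- The value `α₀ + m_1 α_1 + ... + m_d α_d`. -/
def form {R : Type} [CommRing R] {d : ℕ} (α₀ : R) (α : Fin d → R) (m : Fin d → ℕ) : R := α₀ + ∑ l, (m l : R) * α l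

/-- The number of the points of the projective curve `Y ^ 2 = X ^ 3 + a X + e` over `k`: the affine points and the point at infinity. -/
noncomputable def points (k : Type) [CommRing k] (a e : k) : ℕ := Nat.card {P : k × k // P.2 ^ 2 = P.1 ^ 3 + a * P.1 + e} + 1

/-- The discriminant of `Y ^ 2 = X ^ 3 + a X + e` over `k` does not vanish, and the number of its points is `t` times a prime number. -/
def PrimeQuotient (k : Type) [CommRing k] (t : ℕ) (a e : k) : Prop :=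
  16 * (4 * a ^ 3 + 27 * e ^ 2) ≠ 0 ∧ ∃ q : ℕ, q.Prime ∧ points k a e = t * q

/-- The sum of `w (v)` over the primes `v` of `F` of norm at most `x` which do not divide the discriminant of the curve `E : Y ^ 2 = X ^ 3 + a X + e`,
`a = α₀ + ∑ m_l α_l`, `e = β₀ + ∑ m_l β_l`, and for which `#E(F_v) / t` is a prime number. For `w = 1` this is the number `P_{E,t} (x)` of these `v`. -/
noncomputable def count {F : Type} [Field F] [NumberField F] {d : ℕ} (α₀ : 𝓞 F) (α : Fin d → 𝓞 F) (β₀ : 𝓞 F) (β : Fin d → 𝓞 F) (t : ℕ)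
    (w : HeightOneSpectrum (𝓞 F) → ℝ) (m : Fin d → ℕ) (x : ℕ) : ℝ :=
  ∑ᶠ v ∈ {v : HeightOneSpectrum (𝓞 F) | Ideal.absNorm v.asIdeal ≤ x ∧
    PrimeQuotient (𝓞 F ⧸ v.asIdeal) t (Ideal.Quotient.mk v.asIdeal (form α₀ α m)) (Ideal.Quotient.mk v.asIdeal (form β₀ β m))}, w v

/-- The expected value: the sum over the primes `v` of `F` of norm at most `x` of `w (v)` times the proportion of the pairs `(a, e)` of elements of the
residue field `F_v` for which `Y ^ 2 = X ^ 3 + a X + e` is nonsingular and has a number of points which is `t` times a prime number. -/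
noncomputable def expected (F : Type) [Field F] [NumberField F] (t : ℕ) (w : HeightOneSpectrum (𝓞 F) → ℝ) (x : ℕ) : ℝ :=
  ∑ᶠ v ∈ {v : HeightOneSpectrum (𝓞 F) | Ideal.absNorm v.asIdeal ≤ x},
    w v * (Nat.card {c : (𝓞 F ⧸ v.asIdeal) × (𝓞 F ⧸ v.asIdeal) // PrimeQuotient (𝓞 F ⧸ v.asIdeal) t c.1 c.2} / (Ideal.absNorm v.asIdeal : ℝ) ^ 2)

/-- There are integral vectors `z`, `z'` with `(∑ z_l α_l, ∑ z_l β_l) = (1, 0)` and `(∑ z'_l α_l, ∑ z'_l β_l) = (0, 1)`. -/
def Free {R : Type} [CommRing R] {d : ℕ} (α β : Fin d → R) : Prop :=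
  ∃ z z' : Fin d → ℤ, (∑ l, (z l : R) * α l = 1 ∧ ∑ l, (z l : R) * β l = 0) ∧ ∑ l, (z' l : R) * α l = 0 ∧ ∑ l, (z' l : R) * β l = 1

/-- The digit number `i` (counted from the right, beginning with `0`) of `n` in base `b`. -/
def digit (b i n : ℕ) : ℕ := n / b ^ i % b

/-- The number which arises from the number `N` with at most `K` digits in base `b`, if for every `i ∈ S`
the digit number `i` is replaced by `f i`. -/
def change (b K N : ℕ) (f : ℕ → ℕ) (S : Finset ℕ) : ℕ :=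
  ∑ i ∈ range K, (if i ∈ S then f i else digit b i N) * b ^ i

open Classical in
/-- The number of the choices of `s l` of `K l` positions for all `l < d` for which the vector of the numbers obtained by
changing the digits of the `N l` at the chosen positions (according to `f l`) does not have the property `E`. -/
noncomputable def exceptions {d : ℕ} (b : ℕ) (K s N : Fin d → ℕ) (f : Fin d → ℕ → ℕ) (E : (Fin d → ℕ) → Prop) : ℕ :=
  ((Fintype.piFinset (fun l => powersetCard (s l) (range (K l)))).filter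
    (fun S => ¬ E (fun l => change b (K l) (N l) (f l) (S l)))).card

open Pool.Agent.X22.ND (op mem_op mz_law absorb mean_mono cardop_le mean_zmod)
open Pool.Agent.X22.NF (pr mem_pr split card_fiber_le resEquiv)
open Pool.Agent.TH894.NE (mean mean_mul mean_const)

lemma pq_equiv {k k' : Type} [CommRing k] [CommRing k'] (σ : k ≃+* k') (t : ℕ) (a e : k) : PrimeQuotient k' t (σ a) (σ e) ↔ PrimeQuotient k t a e := by
  unfold PrimeQuotient
  have h1 : points k' (σ a) (σ e) = points k a e := by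
    unfold points
    congr 1
    symm
    refine Nat.card_congr ((Equiv.prodCongr σ.toEquiv σ.toEquiv).subtypeEquiv ?_)
    intro P
    show _ ↔ (σ P.2) ^ 2 = (σ P.1) ^ 3 + σ a * σ P.1 + σ e
    rw [← map_pow, ← map_pow, ← map_mul, ← map_add, ← map_add, σ.injective.eq_iff]
  have h2 : (16 * (4 * (σ a) ^ 3 + 27 * (σ e) ^ 2) : k') = σ (16 * (4 * a ^ 3 + 27 * e ^ 2)) := by
    simp [map_ofNat]
  rw [h1, h2, Ne, Ne, EmbeddingLike.map_eq_zero_iff]

section
variable {F : Type} [Field F] [NumberField F] {d : ℕ}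

open Classical in
/-- the indicator -/
noncomputable def ind (α₀ : 𝓞 F) (α : Fin d → 𝓞 F) (β₀ : 𝓞 F) (β : Fin d → 𝓞 F) (t : ℕ) (v : HeightOneSpectrum (𝓞 F)) (m : Fin d → ℕ) : ℝ :=
  if PrimeQuotient (𝓞 F ⧸ v.asIdeal) t (Ideal.Quotient.mk v.asIdeal (form α₀ α m)) (Ideal.Quotient.mk v.asIdeal (form β₀ β m)) then 1 else 0

/-- the average -/
noncomputable def av (t : ℕ) (v : HeightOneSpectrum (𝓞 F)) : ℝ :=
  Nat.card {c : (𝓞 F ⧸ v.asIdeal) × (𝓞 F ⧸ v.asIdeal) // PrimeQuotient (𝓞 F ⧸ v.asIdeal) t c.1 c.2} / (Ideal.absNorm v.asIdeal : ℝ) ^ 2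

lemma two_bad (t : ℕ) (v : HeightOneSpectrum (𝓞 F)) (h : (2 : 𝓞 F) ∈ v.asIdeal) (a e : 𝓞 F ⧸ v.asIdeal) : ¬ PrimeQuotient (𝓞 F ⧸ v.asIdeal) t a e := by
  intro hq
  apply hq.1
  have h2 : (2 : 𝓞 F ⧸ v.asIdeal) = 0 := by
    have := Ideal.Quotient.eq_zero_iff_mem.2 h
    rwa [map_ofNat] at this
  have h16 : (16 : 𝓞 F ⧸ v.asIdeal) = 2 * 8 := by norm_num
  rw [h16, h2, zero_mul, zero_mul]

lemma av_two (t : ℕ) (v : HeightOneSpectrum (𝓞 F)) (h : (2 : 𝓞 F) ∈ v.asIdeal) : av t v = 0 := by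
  unfold av
  have : IsEmpty {c : (𝓞 F ⧸ v.asIdeal) × (𝓞 F ⧸ v.asIdeal) // PrimeQuotient (𝓞 F ⧸ v.asIdeal) t c.1 c.2} :=
    ⟨fun c => two_bad t v h _ _ c.2⟩
  rw [Nat.card_of_isEmpty]
  simp

lemma av_nonneg (t : ℕ) (v : HeightOneSpectrum (𝓞 F)) : 0 ≤ av t v := by
  unfold av
  positivity

lemma av_le (t : ℕ) (v : HeightOneSpectrum (𝓞 F)) : av t v ≤ 1 := by
  have hfin : Finite (𝓞 F ⧸ v.asIdeal) := Ideal.finiteQuotientOfFreeOfNeBot v.asIdeal v.ne_bot
  unfold av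
  apply div_le_one_of_le₀ _ (by positivity)
  have h1 : Nat.card {c : (𝓞 F ⧸ v.asIdeal) × (𝓞 F ⧸ v.asIdeal) // PrimeQuotient (𝓞 F ⧸ v.asIdeal) t c.1 c.2} ≤
      Nat.card ((𝓞 F ⧸ v.asIdeal) × (𝓞 F ⧸ v.asIdeal)) := Finite.card_subtype_le _
  rw [Nat.card_prod] at h1
  have h2 : Nat.card (𝓞 F ⧸ v.asIdeal) = Ideal.absNorm v.asIdeal := rfl
  rw [h2] at h1
  calc ((Nat.card {c : (𝓞 F ⧸ v.asIdeal) × (𝓞 F ⧸ v.asIdeal) // PrimeQuotient (𝓞 F ⧸ v.asIdeal) t c.1 c.2} : ℕ) : ℝ)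
      ≤ ((Ideal.absNorm v.asIdeal * Ideal.absNorm v.asIdeal : ℕ) : ℝ) := by exact_mod_cast h1
    _ = _ := by push_cast; ring

variable (α₀ : 𝓞 F) (α : Fin d → 𝓞 F) (β₀ : 𝓞 F) (β : Fin d → 𝓞 F) (t : ℕ) (w : HeightOneSpectrum (𝓞 F) → ℝ)

lemma diff_le (v : HeightOneSpectrum (𝓞 F)) (m : Fin d → ℕ) : |ind α₀ α β₀ β t v m - av t v| ≤ 1 := by
  have h0 := av_nonneg t v
  have h1 := av_le t v
  unfold ind
  split_ifs
  · rw [abs_le]; constructor <;> linarith
  · rw [abs_le]; constructor <;> linarith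

/-- the reduction to `ZMod p` -/
noncomputable def ρ (v : HeightOneSpectrum (𝓞 F)) (p : ℕ) (hp : p.Prime) (h : Ideal.absNorm v.asIdeal = p) : 𝓞 F →+* ZMod p :=
  ((resEquiv v p hp h).symm : (𝓞 F ⧸ v.asIdeal) →+* ZMod p).comp (Ideal.Quotient.mk v.asIdeal)

open Classical in
lemma ind_eq (v : HeightOneSpectrum (𝓞 F)) (p : ℕ) (hp : p.Prime) (h : Ideal.absNorm v.asIdeal = p) (m : Fin d → ℕ) :
    ind α₀ α β₀ β t v m = if PrimeQuotient (ZMod p) t (ρ v p hp h α₀ + ∑ l, (m l : ZMod p) * ρ v p hp h (α l))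
      (ρ v p hp h β₀ + ∑ l, (m l : ZMod p) * ρ v p hp h (β l)) then 1 else 0 := by
  unfold ind
  have h1 := pq_equiv (resEquiv v p hp h).symm t (Ideal.Quotient.mk v.asIdeal (form α₀ α m)) (Ideal.Quotient.mk v.asIdeal (form β₀ β m))
  have e : ∀ (γ₀ : 𝓞 F) (γ : Fin d → 𝓞 F), (resEquiv v p hp h).symm (Ideal.Quotient.mk v.asIdeal (form γ₀ γ m)) =
      ρ v p hp h γ₀ + ∑ l, (m l : ZMod p) * ρ v p hp h (γ l) := by
    intro γ₀ γ
    show ρ v p hp h (form γ₀ γ m) = _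
    unfold form
    rw [map_add, map_sum]
    congr 1
    apply sum_congr rfl
    intro l _
    rw [map_mul, map_natCast]
  rw [e, e] at h1
  exact if_congr h1.symm rfl rfl

lemma ind_mod (v : HeightOneSpectrum (𝓞 F)) (p : ℕ) (hp : p.Prime) (h : Ideal.absNorm v.asIdeal = p) (m : Fin d → ℕ) :
    ind α₀ α β₀ β t v m = ind α₀ α β₀ β t v (fun l => m l % p) := by
  classical
  have e : ∀ γ : Fin d → ZMod p, ∑ l, ((m l % p : ℕ) : ZMod p) * γ l = ∑ l, (m l : ZMod p) * γ l :=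
    fun γ => sum_congr rfl (fun l _ => by rw [ZMod.natCast_mod])
  have e2 : PrimeQuotient (ZMod p) t (ρ v p hp h α₀ + ∑ l, (m l : ZMod p) * ρ v p hp h (α l))
      (ρ v p hp h β₀ + ∑ l, (m l : ZMod p) * ρ v p hp h (β l)) ↔
      PrimeQuotient (ZMod p) t (ρ v p hp h α₀ + ∑ l, ((m l % p : ℕ) : ZMod p) * ρ v p hp h (α l))
      (ρ v p hp h β₀ + ∑ l, ((m l % p : ℕ) : ZMod p) * ρ v p hp h (β l)) := by
    rw [e, e]
  rw [ind_eq α₀ α β₀ β t v p hp h m, ind_eq α₀ α β₀ β t v p hp h (fun l => m l % p)]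
  exact if_congr e2 rfl rfl

end

/-- equidistribution of the pair of forms -/
lemma balanced (p d : ℕ) (hp : p.Prime) (a₀ e₀ : ZMod p) (a e : Fin d → ZMod p) (z z' : Fin d → ZMod p)
    (h1 : ∑ l, z l * a l = 1) (h2 : ∑ l, z l * e l = 0) (h3 : ∑ l, z' l * a l = 0) (h4 : ∑ l, z' l * e l = 1) (Φ : ZMod p → ZMod p → ℝ) :
    haveI : Fact p.Prime := ⟨hp⟩
    (∑ u : Fin d → ZMod p, Φ (a₀ + ∑ l, u l * a l) (e₀ + ∑ l, u l * e l)) / (p : ℝ) ^ d = (∑ c : ZMod p × ZMod p, Φ c.1 c.2) / (p : ℝ) ^ 2 := by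
  have hf : Fact p.Prime := ⟨hp⟩
  have hp0 : (0 : ℝ) < p := by exact_mod_cast hp.pos
  have key : ∀ c : ZMod p × ZMod p, ∑ u : Fin d → ZMod p, Φ (a₀ + ∑ l, u l * a l) (e₀ + ∑ l, u l * e l) =
      ∑ u : Fin d → ZMod p, Φ (a₀ + ∑ l, u l * a l + c.1) (e₀ + ∑ l, u l * e l + c.2) := by
    intro c
    symm
    apply Fintype.sum_equiv (Equiv.addRight (fun l => c.1 * z l + c.2 * z' l))
    intro u
    have e1 : ∑ l, (u l + (c.1 * z l + c.2 * z' l)) * a l = ∑ l, u l * a l + c.1 := by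
      calc ∑ l, (u l + (c.1 * z l + c.2 * z' l)) * a l = ∑ l, (u l * a l + (c.1 * (z l * a l) + c.2 * (z' l * a l))) :=
            sum_congr rfl (fun l _ => by ring)
        _ = _ := by rw [sum_add_distrib, sum_add_distrib, ← mul_sum, ← mul_sum, h1, h3, mul_one, mul_zero, add_zero]
    have e2 : ∑ l, (u l + (c.1 * z l + c.2 * z' l)) * e l = ∑ l, u l * e l + c.2 := by
      calc ∑ l, (u l + (c.1 * z l + c.2 * z' l)) * e l = ∑ l, (u l * e l + (c.1 * (z l * e l) + c.2 * (z' l * e l))) :=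
            sum_congr rfl (fun l _ => by ring)
        _ = _ := by rw [sum_add_distrib, sum_add_distrib, ← mul_sum, ← mul_sum, h2, h4, mul_one, mul_zero, zero_add]
    show _ = Φ (a₀ + ∑ l, (u l + (c.1 * z l + c.2 * z' l)) * a l) (e₀ + ∑ l, (u l + (c.1 * z l + c.2 * z' l)) * e l)
    rw [e1, e2, ← add_assoc, ← add_assoc]
  have h5 : (p : ℝ) ^ 2 * ∑ u : Fin d → ZMod p, Φ (a₀ + ∑ l, u l * a l) (e₀ + ∑ l, u l * e l) = (p : ℝ) ^ d * ∑ c : ZMod p × ZMod p, Φ c.1 c.2 := by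
    have h6 : ∑ c : ZMod p × ZMod p, ∑ u : Fin d → ZMod p, Φ (a₀ + ∑ l, u l * a l) (e₀ + ∑ l, u l * e l) =
        ∑ c : ZMod p × ZMod p, ∑ u : Fin d → ZMod p, Φ (a₀ + ∑ l, u l * a l + c.1) (e₀ + ∑ l, u l * e l + c.2) :=
      sum_congr rfl (fun c _ => key c)
    rw [sum_const, card_univ, Fintype.card_prod, ZMod.card, nsmul_eq_mul, sum_comm] at h6
    have h7 : ∀ u : Fin d → ZMod p, ∑ c : ZMod p × ZMod p, Φ (a₀ + ∑ l, u l * a l + c.1) (e₀ + ∑ l, u l * e l + c.2) =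
        ∑ c : ZMod p × ZMod p, Φ c.1 c.2 := by
      intro u
      exact Fintype.sum_equiv (Equiv.addLeft (a₀ + ∑ l, u l * a l, e₀ + ∑ l, u l * e l)) _ _ (fun c => rfl)
    rw [sum_congr rfl (fun u _ => h7 u), sum_const, card_univ, Fintype.card_fun, Fintype.card_fin, ZMod.card, nsmul_eq_mul] at h6
    push_cast at h6
    rw [← h6]
    ring
  rw [div_eq_div_iff (by positivity) (by positivity)]
  linarith

lemma mean_sum {ι : Type} (d p : ℕ) (hp : 1 ≤ p) (S : Finset ι) (c : ι → ℝ) (X : ι → (Fin d → ℕ) → ℝ) (μ : ι → ℝ) (h : ∀ v ∈ S, mean d p (X v) = μ v) :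
    mean d p (fun m => ∑ v ∈ S, c v * (X v m - μ v)) = 0 := by
  classical
  induction S using Finset.induction_on with
  | empty =>
    simp only [sum_empty]
    exact mean_const d p hp 0
  | insert a S ha ih =>
    simp only [sum_insert ha]
    rw [Pool.Agent.X22.ND.mean_add', ih (fun v hv => h v (mem_insert_of_mem hv)), mean_mul]
    have e : (fun m => X a m - μ a) = fun m => X a m + (-μ a : ℝ) := by
      funext m
      ring
    rw [e, Pool.Agent.X22.ND.mean_add', mean_const d p hp, h a (mem_insert_self _ _)]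
    ring

section
variable {F : Type} [Field F] [NumberField F] {d : ℕ} (α₀ : 𝓞 F) (α : Fin d → 𝓞 F) (β₀ : 𝓞 F) (β : Fin d → 𝓞 F) (t : ℕ)
  (w : HeightOneSpectrum (𝓞 F) → ℝ)

lemma mean_ind (hfr : Free α β) (v : HeightOneSpectrum (𝓞 F)) (p : ℕ) (hp : p.Prime) (h : Ideal.absNorm v.asIdeal = p) :
    mean d p (ind α₀ α β₀ β t v) = av t v := by
  classical
  have hf : Fact p.Prime := ⟨hp⟩
  obtain ⟨z, z', ⟨h1, h2⟩, h3, h4⟩ := hfr
  have red : ∀ (y : Fin d → ℤ) (γ : Fin d → 𝓞 F), ∑ l, (y l : ZMod p) * ρ v p hp h (γ l) = ρ v p hp h (∑ l, (y l : 𝓞 F) * γ l) := by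
    intro y γ
    rw [map_sum]
    apply sum_congr rfl
    intro l _
    rw [map_mul, map_intCast]
  have e1 : ind α₀ α β₀ β t v = fun m : Fin d → ℕ => (fun u : Fin d → ZMod p => (fun x y : ZMod p => (if PrimeQuotient (ZMod p) t x y then (1 : ℝ) else 0))
      (ρ v p hp h α₀ + ∑ l, u l * ρ v p hp h (α l)) (ρ v p hp h β₀ + ∑ l, u l * ρ v p hp h (β l))) (fun i => (m i : ZMod p)) := by
    funext m
    exact ind_eq α₀ α β₀ β t v p hp h m
  have e2 : mean d p (ind α₀ α β₀ β t v) = (∑ u : Fin d → ZMod p, (fun x y : ZMod p => (if PrimeQuotient (ZMod p) t x y then (1 : ℝ) else 0))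
      (ρ v p hp h α₀ + ∑ l, u l * ρ v p hp h (α l)) (ρ v p hp h β₀ + ∑ l, u l * ρ v p hp h (β l))) / (p : ℝ) ^ d := by
    rw [e1]
    exact mean_zmod d p hp (fun u : Fin d → ZMod p => (fun x y : ZMod p => (if PrimeQuotient (ZMod p) t x y then (1 : ℝ) else 0))
      (ρ v p hp h α₀ + ∑ l, u l * ρ v p hp h (α l)) (ρ v p hp h β₀ + ∑ l, u l * ρ v p hp h (β l)))
  rw [e2]
  have e3 := balanced p d hp (ρ v p hp h α₀) (ρ v p hp h β₀) (fun l => ρ v p hp h (α l)) (fun l => ρ v p hp h (β l)) (fun l => (z l : ZMod p))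
    (fun l => (z' l : ZMod p)) (by rw [red, h1, map_one]) (by rw [red, h2, map_zero]) (by rw [red, h3, map_zero]) (by rw [red, h4, map_one])
    (fun x y : ZMod p => (if PrimeQuotient (ZMod p) t x y then (1 : ℝ) else 0))
  refine e3.trans ?_
  unfold av
  rw [h]
  congr 1
  have e4 : Nat.card {c : (𝓞 F ⧸ v.asIdeal) × (𝓞 F ⧸ v.asIdeal) // PrimeQuotient (𝓞 F ⧸ v.asIdeal) t c.1 c.2} =
      Nat.card {c : ZMod p × ZMod p // PrimeQuotient (ZMod p) t c.1 c.2} := by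
    refine Nat.card_congr ((Equiv.prodCongr (resEquiv v p hp h).symm.toEquiv (resEquiv v p hp h).symm.toEquiv).subtypeEquiv ?_)
    intro c
    exact (pq_equiv (resEquiv v p hp h).symm t c.1 c.2).symm
  rw [e4, Nat.card_eq_fintype_card, Fintype.card_subtype, ← sum_boole]

open Classical in
/-- the sum over the primes above `p` of degree one -/
noncomputable def Zp (x p : ℕ) (m : Fin d → ℕ) : ℝ :=
  ∑ v ∈ (pr F x).filter (fun v => Ideal.absNorm v.asIdeal = p), w v * (ind α₀ α β₀ β t v m - av t v)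

lemma Zp_mod (x p : ℕ) (hp' : p.Prime) (m : Fin d → ℕ) : Zp α₀ α β₀ β t w x p m = Zp α₀ α β₀ β t w x p (fun l => m l % p) := by
  classical
  unfold Zp
  apply sum_congr rfl
  intro v hv
  rw [mem_filter] at hv
  rw [← ind_mod α₀ α β₀ β t v p hp' hv.2]

lemma Zp_le (n : ℕ) (hF : finrank ℚ F ≤ n) (hw : ∀ v, |w v| ≤ 1) (x p : ℕ) (hp' : p.Prime) (m : Fin d → ℕ) : |Zp α₀ α β₀ β t w x p m| ≤ n := by
  classical
  unfold Zp
  refine (abs_sum_le_sum_abs _ _).trans ?_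
  have h1 : ∀ v ∈ (pr F x).filter (fun v => Ideal.absNorm v.asIdeal = p), |w v * (ind α₀ α β₀ β t v m - av t v)| ≤ 1 := by
    intro v _
    rw [abs_mul]
    exact mul_le_one₀ (hw v) (abs_nonneg _) (diff_le α₀ α β₀ β t v m)
  refine (sum_le_sum h1).trans ?_
  rw [sum_const, nsmul_eq_mul, mul_one]
  exact_mod_cast (card_fiber_le x p hp').trans hF

lemma Zp_mean (hfr : Free α β) (x p : ℕ) (hp' : p.Prime) : mean d p (Zp α₀ α β₀ β t w x p) = 0 := by
  classical
  unfold Zp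
  apply mean_sum d p hp'.one_lt.le
  intro v hv
  rw [mem_filter] at hv
  exact mean_ind α₀ α β₀ β t hfr v p hp' hv.2

lemma main_eq (m : Fin d → ℕ) (x : ℕ) : count α₀ α β₀ β t w m x - expected F t w x = ∑ v ∈ pr F x, w v * (ind α₀ α β₀ β t v m - av t v) := by
  classical
  have h1 : count α₀ α β₀ β t w m x = ∑ v ∈ pr F x, w v * ind α₀ α β₀ β t v m := by
    have hset : {v : HeightOneSpectrum (𝓞 F) | Ideal.absNorm v.asIdeal ≤ x ∧
        PrimeQuotient (𝓞 F ⧸ v.asIdeal) t (Ideal.Quotient.mk v.asIdeal (form α₀ α m)) (Ideal.Quotient.mk v.asIdeal (form β₀ β m))} =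
        (((pr F x).filter (fun v => PrimeQuotient (𝓞 F ⧸ v.asIdeal) t (Ideal.Quotient.mk v.asIdeal (form α₀ α m)) (Ideal.Quotient.mk v.asIdeal (form β₀ β m))) :
          Finset (HeightOneSpectrum (𝓞 F))) : Set (HeightOneSpectrum (𝓞 F))) := by
      ext v
      rw [Finset.mem_coe, mem_filter, mem_pr]
      constructor
      · rintro ⟨h1, h2⟩
        exact ⟨⟨h1, fun h => two_bad t v h _ _ h2⟩, h2⟩
      · rintro ⟨⟨h1, _⟩, h2⟩
        exact ⟨h1, h2⟩
    unfold count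
    rw [hset, finsum_mem_coe_finset, sum_filter]
    apply sum_congr rfl
    intro v _
    unfold ind
    split_ifs
    · rw [mul_one]
    · rw [mul_zero]
  have h2 : expected F t w x = ∑ v ∈ pr F x, w v * av t v := by
    unfold expected
    rw [← finsum_mem_coe_finset]
    apply finsum_mem_inter_support_eq'
    intro v hv
    rw [Finset.mem_coe, mem_pr]
    constructor
    · intro h3
      refine ⟨h3, fun h4 => ?_⟩
      apply hv
      show w v * av t v = 0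
      rw [av_two t v h4, mul_zero]
    · intro h3
      exact h3.1
  rw [h1, h2, ← sum_sub_distrib]
  apply sum_congr rfl
  intro v _
  ring

end

/-- **Refined Koblitz counts over number fields in thin families.** Let a base `b ≥ 2`, integers `d ≥ 1`, `n ≥ 0`, `A ≥ 0` and `δ > 0` be given. There are
`c > 0` and `y₀` such that for all integers `r_l`, `K_l` (`l = 1, ..., d`), `y` with `2 r_l ≤ K_l` and `y ≥ y₀` the following holds.

Let `0 ≤ N_l < b ^ K_l` be arbitrary integers, prescribe for every position `j` a digit `g l j` different from the digit of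
`N_l` in base `b`, and let `Λ x` be for every `x` any set of at most `x ^ A` systems `(F; α₀, α, β₀, β; t; w)` of a number field `F` of degree at most `n`, integers
`α₀, α_l, β₀, β_l` of `F` satisfying `Free`, an integer `t ≥ 0`, and a real function `w` with `|w (v)| ≤ 1` on the primes of `F`.
If one chooses `r_l` of the `K_l` positions and replaces the digits of `N_l` at these positions, then for all but at most a proportion
`1 / y ^ A` of the choices the vector `m` obtained has the following property: for all integers `x` with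
`y ≤ x ≤ exp (c r_l)` for all `l` and all systems from `Λ x`, the sum of `w (v)` over the primes `v` of `F` with `N v ≤ x` for which `E : Y ^ 2 = X ^ 3 + a X + e`,
`a = α₀ + ∑ m_l α_l`, `e = β₀ + ∑ m_l β_l`, has good reduction (of this model) and `#E(F_v) / t` is a prime number, differs from its expected value by at most
`x ^ (1 / 2 + δ)`. -/
theorem result (b d n : ℕ) (hb : 2 ≤ b) (hd : 1 ≤ d) (δ : ℝ) (hδ : 0 < δ) (A : ℕ) :
    ∃ c : ℝ, 0 < c ∧ ∃ y₀ : ℕ,
    ∀ (K r : Fin d → ℕ) (y : ℕ), (∀ l, 2 * r l ≤ K l) → y₀ ≤ y →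
    ∀ N : Fin d → ℕ, (∀ l, N l < b ^ K l) → ∀ g : Fin d → ℕ → ℕ, (∀ l j, g l j < b ∧ g l j ≠ digit b j (N l)) →
    ∀ (κ : Type) (F : κ → Type) [∀ i, Field (F i)] [∀ i, NumberField (F i)] (α₀ : ∀ i, 𝓞 (F i)) (α : ∀ i, Fin d → 𝓞 (F i)) (β₀ : ∀ i, 𝓞 (F i))
      (β : ∀ i, Fin d → 𝓞 (F i)) (t : κ → ℕ) (w : ∀ i, HeightOneSpectrum (𝓞 (F i)) → ℝ) (Λ : ℕ → Finset κ),
      (∀ i, finrank ℚ (F i) ≤ n) → (∀ i, Free (α i) (β i)) → (∀ i v, |w i v| ≤ 1) → (∀ x, (Λ x).card ≤ x ^ A) →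
      (exceptions b K r N g (fun m => ∀ x : ℕ, y ≤ x → (∀ l, (x : ℝ) ≤ Real.exp (c * r l)) → ∀ i ∈ Λ x,
        |count (α₀ i) (α i) (β₀ i) (β i) (t i) (w i) m x - expected (F i) (t i) (w i) x| ≤ (x : ℝ) ^ (1 / 2 + δ)) : ℝ) ≤
        1 / (y : ℝ) ^ A * ∏ l, ((K l).choose (r l) : ℝ) := by
  classical
  obtain ⟨c, hc, y₀, h⟩ := mz_law b d hb hd (δ / 2) (by positivity) A A
  obtain ⟨x₁, hx₁⟩ := absorb (3 * ((n : ℝ) + 1)) (δ / 2) (by positivity) (by positivity)
  refine ⟨c, hc, y₀ + x₁ + 2, fun K r y hrK hy N hN g hg κ F iF iN α₀ α β₀ β t w Λ hF hfr hw hΛ => ?_⟩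
  have hn0 : (0 : ℝ) ≤ n := Nat.cast_nonneg n
  have h2 := h K r y hrK (by omega) N hN g hg κ Λ (fun x _ => hΛ x)
    (fun x i p m => Zp (α₀ i) (α i) (β₀ i) (β i) (t i) (w i) x p m)
    (fun x i p m hp' => Zp_mod (α₀ i) (α i) (β₀ i) (β i) (t i) (w i) x p hp' m)
    (fun x _ => ((n : ℝ) + 1) * Real.sqrt x) (fun x _ i _ => by positivity) ?_ ?_ ?_
    (fun m => ∀ x : ℕ, y ≤ x → (∀ l, (x : ℝ) ≤ Real.exp (c * r l)) → ∀ i ∈ Λ x,
        |count (α₀ i) (α i) (β₀ i) (β i) (t i) (w i) m x - expected (F i) (t i) (w i) x| ≤ (x : ℝ) ^ (1 / 2 + δ)) ?_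
  · unfold exceptions
    exact h2
  · -- the bound
    intro x hx i _ p hp' m
    rw [mem_op] at hp'
    refine (Zp_le (α₀ i) (α i) (β₀ i) (β i) (t i) (w i) n (hF i) (hw i) x p hp'.2.1 m).trans ?_
    have hs : 1 ≤ Real.sqrt x := by
      rw [Real.one_le_sqrt]
      exact_mod_cast (by omega : 1 ≤ x)
    nlinarith
  · -- the means
    intro x hx i _ p hp'
    rw [mem_op] at hp'
    exact Zp_mean (α₀ i) (α i) (β₀ i) (β i) (t i) (w i) (hfr i) x p hp'.2.1
  · -- the variance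
    intro x hx i _
    have hone : ∀ p ∈ op x, mean d p (fun m => Zp (α₀ i) (α i) (β₀ i) (β i) (t i) (w i) x p m ^ 2) ≤ (n : ℝ) ^ 2 := by
      intro p hp'
      rw [mem_op] at hp'
      have h3 := mean_mono d p (fun m => Zp (α₀ i) (α i) (β₀ i) (β i) (t i) (w i) x p m ^ 2) (fun _ => (n : ℝ) ^ 2) (fun m => by
        have := Zp_le (α₀ i) (α i) (β₀ i) (β i) (t i) (w i) n (hF i) (hw i) x p hp'.2.1 m
        show Zp (α₀ i) (α i) (β₀ i) (β i) (t i) (w i) x p m ^ 2 ≤ (n : ℝ) ^ 2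
        rw [← sq_abs]
        gcongr)
      rwa [mean_const d p hp'.2.1.one_lt.le] at h3
    refine (sum_le_sum hone).trans ?_
    rw [sum_const, nsmul_eq_mul, mul_pow, Real.sq_sqrt (Nat.cast_nonneg x)]
    have h4 := cardop_le x
    calc ((op x).card : ℝ) * (n : ℝ) ^ 2 ≤ x * ((n : ℝ) + 1) ^ 2 := by
          gcongr
          linarith
      _ = _ := by ring
  · -- the conclusion
    intro m hm x hyx hxr i hi
    have hx0 : (0 : ℝ) < x := by exact_mod_cast (by omega : 0 < x)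
    have hx1 : (1 : ℝ) ≤ x := by exact_mod_cast (by omega : 1 ≤ x)
    have hlx0 : 0 ≤ Real.log x := Real.log_natCast_nonneg x
    have hni : (finrank ℚ (F i) : ℝ) ≤ n := by exact_mod_cast hF i
    have h3 := split (F := F i) x (fun v => w i v * (ind (α₀ i) (α i) (β₀ i) (β i) (t i) v m - av (t i) v)) 1 (by
      intro v _
      rw [abs_mul]
      exact mul_le_one₀ (hw i v) (abs_nonneg _) (diff_le (α₀ i) (α i) (β₀ i) (β i) (t i) v m)) zero_le_one
    rw [← main_eq (α₀ i) (α i) (β₀ i) (β i) (t i) (w i) m x] at h3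
    have h4 := hm x hyx hxr i hi
    have h5 : ∑ p ∈ op x, Zp (α₀ i) (α i) (β₀ i) (β i) (t i) (w i) x p m = ∑ p ∈ op x, ∑ v ∈ (pr (F i) x).filter (fun v => Ideal.absNorm v.asIdeal = p),
        w i v * (ind (α₀ i) (α i) (β₀ i) (β i) (t i) v m - av (t i) v) := rfl
    rw [← h5, mul_one] at h3
    have hsq : (Nat.sqrt x : ℝ) ≤ Real.sqrt x := Real.nat_sqrt_le_real_sqrt
    have hs1 : 1 ≤ Real.sqrt x := Real.one_le_sqrt.2 hx1
    have h7 : (finrank ℚ (F i) : ℝ) * (Nat.sqrt x + 1) ≤ 2 * n * Real.sqrt x := by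
      calc (finrank ℚ (F i) : ℝ) * (Nat.sqrt x + 1) ≤ n * (Real.sqrt x + Real.sqrt x) := by gcongr
        _ = _ := by ring
    have h6 := hx₁ x (by omega)
    have hpow : (x : ℝ) ^ (1 / 2 + δ) = Real.sqrt x * ((x : ℝ) ^ (δ / 2) * (x : ℝ) ^ (δ / 2)) := by
      rw [← Real.rpow_add hx0, Real.sqrt_eq_rpow, ← Real.rpow_add hx0]
      congr 1
      ring
    have hge1 : (1 : ℝ) ≤ (x : ℝ) ^ (δ / 2) := Real.one_le_rpow hx1 (by positivity)
    have h8 : 3 * ((n : ℝ) + 1) ≤ (x : ℝ) ^ (δ / 2) := by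
      refine le_trans ?_ h6
      have : 0 ≤ 3 * ((n : ℝ) + 1) * Real.log x := by positivity
      linarith
    have h9 : |count (α₀ i) (α i) (β₀ i) (β i) (t i) (w i) m x - expected (F i) (t i) (w i) x| ≤
        ((n : ℝ) + 1) * Real.sqrt x * (x : ℝ) ^ (δ / 2) + 2 * n * Real.sqrt x := by
      have h10 := abs_sub_abs_le_abs_sub (count (α₀ i) (α i) (β₀ i) (β i) (t i) (w i) m x - expected (F i) (t i) (w i) x)
        (∑ p ∈ op x, Zp (α₀ i) (α i) (β₀ i) (β i) (t i) (w i) x p m)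
      linarith
    rw [hpow]
    have hs0 : 0 ≤ Real.sqrt x := Real.sqrt_nonneg _
    calc |count (α₀ i) (α i) (β₀ i) (β i) (t i) (w i) m x - expected (F i) (t i) (w i) x|
        ≤ ((n : ℝ) + 1) * Real.sqrt x * (x : ℝ) ^ (δ / 2) + 2 * n * Real.sqrt x := h9
      _ ≤ ((n : ℝ) + 1) * Real.sqrt x * (x : ℝ) ^ (δ / 2) + 2 * n * Real.sqrt x * (x : ℝ) ^ (δ / 2) := by
          have : 0 ≤ 2 * (n : ℝ) * Real.sqrt x := by positivity
          nlinarith
      _ ≤ Real.sqrt x * (3 * ((n : ℝ) + 1) * (x : ℝ) ^ (δ / 2)) := by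
          have : 0 ≤ Real.sqrt x * (x : ℝ) ^ (δ / 2) := by positivity
          nlinarith
      _ ≤ Real.sqrt x * ((x : ℝ) ^ (δ / 2) * (x : ℝ) ^ (δ / 2)) := by gcongr

end Pool.Agent.Results.MP_6accbf_nt.FewDigitCurvesOverNumberFields
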